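import Pool.Agent.Lib_helper30.QM.Hy

set_option autoImplicit false

open Finset

namespace Pool.Agent.Results.MP_cf5f8b_an.ClassicalAdaptivity

open Pool.Agent.HYB (variance influence)
open Pool.Agent.QMem
open Pool.Agent.Lib_helper93.QSim (DTree pr)

/-- **The Aaronson–Ambainis conjecture (polynomial bound) and the classical simulation with
polynomially many queries for quantum algorithms with a coherent quantum memory of any size whose
queries are controlled by measured outcomes and few memory qubits.**

An algorithm (`MemAlg`) makes `T` calls; in a call its memory `ℂ^S` is coupled to a fresh workspace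
`ℂ^A`, `R` rounds of `p` parallel queries alternate with unitary operations, and then the workspace
is measured while the memory stays coherent. Everything depends in an arbitrary way on the record
`h` of the outcomes of all earlier calls (and on hidden randomness). `H.prob R T [] φ₀ x` is the
acceptance probability on the input `x ∈ {-1,1}^I`, a polynomial of degree at most `2 n` in the bits
of `x`, where `n = T R p` is the number of the queries.

Let every call be of one of the following three kinds (the kind may depend on the record):
* `Shallow`: at most `c` queries are made before the last round of queries of the call, and up to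
  this round the memory acts on the query registers through a part of dimension `d` only (so
  `d = 1` if it does not act on them, and `d = 2^m` if only `m` of its qubits do), or, more
  generally, the query magnitudes are at most `d` times those from one mixed memory state; in
  particular, for `c = 0`, the calls with one round of parallel queries;
* `Clean`: the call acts on `k` clean qubits, which may be qubits of the memory, and on maximally
  mixed ones, and the rest of the memory is idle;
* `Noisy`: before the queries of each round the depolarizing noise of rate `lam` acts on the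
  address qubits of the queries.

Put `B(X) = 2^20 n^6 (16 n)^(2 c) / X` (`polyBound`) and
`u = max 2 (1 / log₂ (1 / (1 - lam / 2)))`.

* If the acceptance probability has the variance `v > 0` then some coordinate has influence at
  least `1 / (2^(4 k) B(v^2 / d)^(4 u + 2))`.
* For `0 < ε, δ ≤ 1` a classical decision tree of depth at most
  `2^(2 k) B(ε^4 δ^2 / d)^(2 u + 1)` computes the acceptance probability up to `ε` for all but a
  fraction `δ` of the inputs.

So the bounds are polynomial in `n`, `d`, `2^k` and `1 / v` (or `1 / ε`, `1 / δ`) for every fixed
noise rate `lam` and every fixed number `c`. For `S = Unit`, `d = 1` and `c = (r - 1) p` this is the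
theorem on algorithms without a quantum memory (see `hybrid_of_memory`). -/
theorem result (I A S E : Type) [Fintype I] [DecidableEq I] [Fintype A] [Fintype S] [Fintype E]
    (T R p c k : ℕ) (d lam : ℝ) (hn : 1 ≤ T * R * p) (hd : 1 ≤ d) (hlam : 0 < lam)
    (hlam' : lam ≤ 1) (H : MemAlg I A S E p) (φ₀ : EuclideanSpace ℂ S) (hφ₀ : ‖φ₀‖ = 1)
    (hH : ∀ h, H.Shallow R c d h ∨ H.Clean k h ∨ H.Noisy R lam h) :
    (∀ v : ℝ, 0 < v → variance (H.prob R T [] φ₀) = v →
      ∃ i, 1 / (2 ^ (4 * k) * polyBound (T * R * p) c (v ^ 2 / d) ^
          (4 * max 2 (1 / Real.logb 2 (1 / (1 - lam / 2))) + 2)) ≤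
        influence (H.prob R T [] φ₀) i) ∧
    (∀ ε δ : ℝ, 0 < ε → ε ≤ 1 → 0 < δ → δ ≤ 1 →
      ∃ t : DTree I ℝ,
        (t.depth : ℝ) ≤ 2 ^ (2 * k) * polyBound (T * R * p) c (ε ^ 4 * δ ^ 2 / d) ^
          (2 * max 2 (1 / Real.logb 2 (1 / (1 - lam / 2))) + 1) ∧
        pr {x | ε < |H.prob R T [] φ₀ x - t.eval x|} ≤ δ) :=
  ⟨fun _ hv hvar => qm_infl H hφ₀ hn hlam hlam' hd hH hv hvar (le_max_left _ _)
      (le_max_right _ _),
    fun _ _ hε hε1 hδ hδ1 => qm_sim H hφ₀ hn hlam hlam' hd hH hε hε1 hδ hδ1 (le_max_left _ _)
      (le_max_right _ _)⟩

end Pool.Agent.Results.MP_cf5f8b_an.ClassicalAdaptivity
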