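import Pool.Agent.Lib_helper30.MF.Cor

set_option autoImplicit false

open Finset

namespace Pool.Agent.Results.MP_cf5f8b_an.MovingFront

/-- The average of `g` over the cube (a bit `b` stands for the sign `(-1)^b`). -/
noncomputable def E {n : ℕ} (g : (Fin n → Bool) → ℝ) : ℝ :=
  ((2 : ℝ) ^ n)⁻¹ * ∑ x : Fin n → Bool, g x

/-- The Fourier coefficient of `f` at the set `T`. -/
noncomputable def fhat {n : ℕ} (f : (Fin n → Bool) → ℝ) (T : Finset (Fin n)) : ℝ :=
  E fun x => f x * ∏ i ∈ T, (-1 : ℝ) ^ (x i).toNat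

/-- The variance of `f`. -/
noncomputable def Var {n : ℕ} (f : (Fin n → Bool) → ℝ) : ℝ := E (fun x => f x ^ 2) - E f ^ 2

/-- The influence of the coordinate `j`. -/
noncomputable def Inf {n : ℕ} (f : (Fin n → Bool) → ℝ) (j : Fin n) : ℝ :=
  E fun x => ((f x - f (Function.update x j (!x j))) / 2) ^ 2

/-- The noise stability `∑_{T ≠ ∅} ρ^{|T|} f^(T)^2` (variance of the conditional expectation given
a random set of coordinates of density `ρ`). -/
noncomputable def Stab {n : ℕ} (ρ : ℝ) (f : (Fin n → Bool) → ℝ) : ℝ :=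
  ∑ T ∈ univ.erase (∅ : Finset (Fin n)), ρ ^ T.card * fhat f T ^ 2

/-- The variance on the levels `1, ..., k`. -/
noncomputable def Low {n : ℕ} (f : (Fin n → Bool) → ℝ) (k : ℕ) : ℝ :=
  ∑ T ∈ univ.filter (fun T : Finset (Fin n) => T.card ≠ 0 ∧ T.card ≤ k), fhat f T ^ 2

lemma E_eq {n : ℕ} (g : (Fin n → Bool) → ℝ) : E g = Lib_helper8.QP.av g := by
  unfold E Lib_helper8.QP.av
  rw [Fintype.card_fin]

lemma fhat_eq {n : ℕ} (f : (Fin n → Bool) → ℝ) (T : Finset (Fin n)) :
    fhat f T = Lib_helper30.AA.coef f T := by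
  unfold fhat E Lib_helper30.AA.coef Lib_helper30.AA.chi
  rw [Fintype.card_fin]

lemma Inf_eq {n : ℕ} (f : (Fin n → Bool) → ℝ) (j : Fin n) :
    Lib_helper8.QP.inf f j = Inf f j := by
  unfold Inf Lib_helper8.QP.inf
  rw [E_eq]
  unfold Lib_helper8.QP.av
  congr 1
  refine Finset.sum_congr rfl fun x _ => ?_
  exact Lib_helper9.QP.D_sq j f x

/-- **Unified Aaronson-Ambainis inequality: all noise rates, all Fourier levels.**

Let `f : {-1,1}^n → [-1,1]` have Fourier degree at most `d`.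
(a) For every `0 ≤ ρ < 1` with `S = ∑_{T ≠ ∅} ρ^{|T|} f^(T)^2 > 0` some influence is at least
    `(S / 4d)^(400 (1 + log (1/(1-ρ))))`.
Consequences:
(b) if `f` is not constant, some influence is at least `exp (-1000 log(4d) log(4d / Var f))`;
(c) if `f` is not constant and `I` is the total influence (so `I / Var f` is the average Fourier
    level), some influence is at least
    `(Var f / 4d)^(2400 (1 + log (1 + (I / Var f) / log (4d / Var f))))`;
(d) if the variance `W` on the levels `1, ..., k` is positive, some influence is at least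
    `(W / 4d)^(800 (1 + log (k+1)))`. -/
theorem result (n : ℕ) (f : (Fin n → Bool) → ℝ) (hf : ∀ x, |f x| ≤ 1) (d : ℕ) (hd : 1 ≤ d)
    (hdeg : ∀ T : Finset (Fin n), d < T.card → fhat f T = 0) :
    (∀ ρ : ℝ, 0 ≤ ρ → ρ < 1 → 0 < Stab ρ f →
      ∃ j, (Stab ρ f / (4 * d)) ^ (400 * (1 + Real.log (1 / (1 - ρ)))) ≤ Inf f j) ∧
    (0 < Var f →
      ∃ j, Real.exp (-(1000 * Real.log (4 * d) * Real.log (4 * d / Var f))) ≤ Inf f j) ∧
    (0 < Var f →
      ∃ j, (Var f / (4 * d)) ^ (2400 * (1 + Real.log (1 + (∑ i, Inf f i) /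
        (Var f * Real.log (4 * d / Var f))))) ≤ Inf f j) ∧
    (∀ k : ℕ, 0 < Low f k →
      ∃ j, (Low f k / (4 * d)) ^ (800 * (1 + Real.log (k + 1))) ≤ Inf f j) := by
  have hlow : Lib_helper8.QP.LowDeg d f := fun S hS => by rw [← fhat_eq]; exact hdeg S hS
  have hInf : ∀ j, Lib_helper8.QP.inf f j = Inf f j := fun j => Inf_eq f j
  have hV : Var f = Lib_helper8.QP.av (fun x => f x ^ 2) - Lib_helper8.QP.av f ^ 2 := by
    unfold Var; rw [E_eq, E_eq]
  refine ⟨fun ρ hρ0 hρ1 hS => ?_, fun h => ?_, fun h => ?_, fun k hk => ?_⟩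
  · obtain ⟨j, hj⟩ := Lib_helper30.MF.all_rho hd hf hlow hρ0 hρ1 (s := Stab ρ f) hS (by
      unfold Stab Lib_helper30.MF.st
      exact le_of_eq (Finset.sum_congr rfl fun T _ => by rw [fhat_eq]))
    exact ⟨j, by rw [← hInf]; exact hj⟩
  · obtain ⟨j, hj⟩ := Lib_helper30.MF.general hd hf hlow h hV
    exact ⟨j, by rw [← hInf]; exact hj⟩
  · obtain ⟨j, hj⟩ := Lib_helper30.MF.total hd hf hlow h hV
    simp_rw [hInf] at hj
    exact ⟨j, hj⟩
  · obtain ⟨j, hj⟩ := Lib_helper30.MF.levels hd hf hlow k (W := Low f k) hk (by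
      unfold Low
      exact Finset.sum_congr rfl fun T _ => by rw [fhat_eq])
    exact ⟨j, by rw [← hInf]; exact hj⟩

end Pool.Agent.Results.MP_cf5f8b_an.MovingFront
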