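import Pool.Agent.Lib_helper49.Mix.Final
import Pool.Agent.Lib_helper80.PLH.AllLeaf

/-!
# The Aaronson-Ambainis inequality with the degree replaced by a cost

`Built f c`: the function `f` on the cube `{-1,1}^V` can be built with cost `c` from
* leaves: functions with values in `[-1,1]` which are pluriharmonic in groups of variables; the cost
  is `3 * 1024^k * d` for degree `d` and at most `k + 1` groups in each monomial;
* linear combinations `sum_a p_a h_a`: the cost is `sum_a |p_a| c_a`;
* queries: `h = h_1` or `h = h_0` according to one variable `v`; the cost is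
  `(Inf_v h)^(1/2) + (c_0 + c_1) / 2`;
* products `q r` of functions of disjoint sets of variables: the cost is `|r|_2 a + |E q| b`.

Then the inequality of Aaronson and Ambainis holds for `f` with `c` in the place of the degree.

Examples. One group (`k = 0`): discrete pluriharmonic functions, that is real parts of polynomials
of degree at most one in each of the variables `z_i = x_i + i y_i`, with values in `[-1,1]` on the
cube: cost `3 d`. A decision tree of depth `D` which ends in such functions: at most `D + 3 d`.
Every function of degree at most `k + 1` with values in `[-1,1]`: `3 * 1024^k * (k + 1)`, see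
`built_of_degree`.

Proof. By induction on the construction one shows that the covariance of `f` with every function `F`
with `E F^2 <= 1` is at most `c (max_v Inf_v F)^(1/40)`; then one takes `F = f`.
* Leaf (`Lib_helper84/PLH/Leaf40`): from the inequality
  `sum_j (Inf_{x_j} h + Inf_{y_j} h)^(19/20) <= 2 * 2^(20 k) d^2` by the inequality of Cauchy-Schwarz.
  This is based on `|E g conj h| <= (E |h|^(9/7))^(7/9) (E |g|^4)^(1/4)` for multi-affine `g`, `h`
  on `{1,i,-1,-i}^n` (`Lib_helper84/PLH/BQ`), on a contraction inequality for the groups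
  (`Contr`, `Proc`, `S4G` there) and on the inequality of Markov (`Lib_helper4/PluriG`).
* Query (`Lib_helper49/Mix/Rules`): `Cov(h,F)` is the sum of `E (D_v h) (D_v F)` and of the mean of
  `Cov(h_0, F')` and `Cov(h_1, F')`, where `F'` is the average of `F` over the variable `v`.
* Product: `Cov(q r, F) = Cov(q, G) + (E q) Cov(r, F)`, where `G` is the average of `r F` over the
  variables of `r`; the influences of `G` are at most `E r^2` times those of `F`.
-/

set_option autoImplicit false

namespace Pool.Agent.Results.MP_cf5f8b_an.PluriharmonicCalculus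

open Finset

/-- The mean of a function on the cube; the sign `(-1)^b` is given by `b : Bool`. -/
noncomputable def mean {V : Type} [Fintype V] [DecidableEq V] (F : (V → Bool) → ℝ) : ℝ :=
  ((2 : ℝ) ^ Fintype.card V)⁻¹ * ∑ x, F x

/-- The variance. -/
noncomputable def variance {V : Type} [Fintype V] [DecidableEq V] (F : (V → Bool) → ℝ) : ℝ :=
  (mean fun x => F x ^ 2) - mean F ^ 2

/-- The influence of the variable `v`. -/
noncomputable def influence {V : Type} [Fintype V] [DecidableEq V] (F : (V → Bool) → ℝ) (v : V) :
    ℝ :=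
  mean fun x => ((F x - F (Function.update x v (!x v))) / 2) ^ 2

/-- `Built f c`: the function `f` can be built with cost `c`. -/
inductive Built {V : Type} [Fintype V] [DecidableEq V] : ((V → Bool) → ℝ) → ℝ → Prop
  /-- Leaf: `h` has values in `[-1,1]`; its variables are among the variables `x_i`, `y_i`, `i < n`,
  by the injection `s` (`x_i` is `Sum.inl i`, `y_i` is `Sum.inr i`), the pair `(x_i, y_i)` is in the
  group `g i`, and `h = Re ∑_u ∑_S c_{u,S} ∏_{i ∈ S} (x_i + i u_{g(i)} y_i)`, where `u` runs over the
  sign vectors indexed by the `m` groups. If `c_{u,S} ≠ 0`, then `|S| ≤ d` and `S` meets at most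
  `k + 1` groups. -/
  | leaf {n m : ℕ} (k d : ℕ) (g : Fin n → Fin m) (s : V → Fin n ⊕ Fin n)
      (c : (Fin m → Bool) → Finset (Fin n) → ℂ) (h : (V → Bool) → ℝ) (hs : Function.Injective s)
      (hdeg : ∀ u S, c u S ≠ 0 → S.card ≤ d)
      (hk : ∀ u S, c u S ≠ 0 → (S.image g).card ≤ k + 1)
      (hh : ∀ y : Fin n ⊕ Fin n → Bool, h (fun v => y (s v)) =
        (∑ u, ∑ S, c u S * ∏ i ∈ S, ((-1) ^ (y (Sum.inl i)).toNat +
          (-1) ^ (u (g i)).toNat * (-1) ^ (y (Sum.inr i)).toNat * Complex.I)).re)
      (hb : ∀ x, |h x| ≤ 1) : Built h (3 * 1024 ^ k * d)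
  /-- Linear combination. -/
  | mix {A : Type} [Fintype A] (p : A → ℝ) (h : A → (V → Bool) → ℝ) (c : A → ℝ)
      (H : ∀ a, Built (h a) (c a)) : Built (fun x => ∑ a, p a * h a x) (∑ a, |p a| * c a)
  /-- Query of the variable `v`; `h0` and `h1` do not depend on `v`. -/
  | query (v : V) (h h0 h1 : (V → Bool) → ℝ) (a b : ℝ)
      (e0 : ∀ x, h0 (Function.update x v (!x v)) = h0 x)
      (e1 : ∀ x, h1 (Function.update x v (!x v)) = h1 x)
      (hh : ∀ x, h x = if x v then h1 x else h0 x) (H0 : Built h0 a) (H1 : Built h1 b) :
      Built h (Real.sqrt (influence h v) + (a + b) / 2)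
  /-- Product of a function `q` of the variables outside `T` and a function `r` of the variables
  in `T`. -/
  | prod (T : Finset V) (q r : (V → Bool) → ℝ) (a b : ℝ)
      (hq : ∀ x y : V → Bool, (∀ v, v ∉ T → x v = y v) → q x = q y)
      (hr : ∀ x y : V → Bool, (∀ v ∈ T, x v = y v) → r x = r y) (Hq : Built q a)
      (Hr : Built r b) :
      Built (fun x => q x * r x) (Real.sqrt (mean fun x => r x ^ 2) * a + |mean q| * b)

/-- Every function with values in `[-1,1]` of degree at most `k + 1` can be built with the cost
`3 * 1024^k * (k + 1)`: it is a leaf, with one group for each variable. -/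
theorem built_of_degree {V : Type} [Fintype V] [DecidableEq V] (f : (V → Bool) → ℝ) (k : ℕ)
    (hb : ∀ x, |f x| ≤ 1)
    (hdeg : ∀ S : Finset V, k + 1 < S.card →
      (mean fun x => f x * ∏ v ∈ S, (-1 : ℝ) ^ (x v).toNat) = 0) :
    Built f (3 * 1024 ^ k * ((k + 1 : ℕ) : ℝ)) := by
  have e : V ≃ Fin (Fintype.card V) := Fintype.equivFin V
  have hc : ∀ (S : Finset (Fin (Fintype.card V))),
      ((Pool.Agent.Lib_helper30.AA.coef f (S.map e.symm.toEmbedding) /
        2 ^ (Fintype.card V) : ℝ) : ℂ) ≠ 0 → S.card ≤ k + 1 := by
    intro S h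
    by_contra hcon
    push Not at hcon
    apply h
    have h1 := hdeg (S.map e.symm.toEmbedding) (by rw [card_map]; exact hcon)
    have h2 : Pool.Agent.Lib_helper30.AA.coef f (S.map e.symm.toEmbedding) = 0 := h1
    rw [h2]
    simp
  refine Built.leaf k (k + 1) id (fun v => Sum.inl (e v))
    (fun _ S => ((Pool.Agent.Lib_helper30.AA.coef f (S.map e.symm.toEmbedding) /
      2 ^ (Fintype.card V) : ℝ) : ℂ)) f (fun v w h => e.injective (Sum.inl_injective h))
    (fun u S h => hc S h) (fun u S h => by rw [image_id]; exact hc S h) (fun y => ?_) hb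
  rw [← Pool.Agent.Lib_helper80.PLH.all_leaf_V e (Pool.Agent.Lib_helper30.AA.coef f) y,
    Pool.Agent.Lib_helper30.AA.inversion f (fun v => y (Sum.inl (e v)))]
  rfl

/-- **The Aaronson-Ambainis inequality with the degree replaced by the cost.** If `f` can be built
with cost `c`, `E f^2 ≤ 1` (for instance if `f` has values in `[-1,1]`) and `f` is not constant,
then `Inf_v f ≥ (Var f / c)^40` for some variable `v`. -/
theorem result {V : Type} [Fintype V] [DecidableEq V] (f : (V → Bool) → ℝ) (c : ℝ)
    (hf : Built f c) (h1 : (mean fun x => f x ^ 2) ≤ 1) (h2 : 0 < variance f) :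
    ∃ v, (variance f / c) ^ 40 ≤ influence f v := by
  have key : Pool.Agent.Lib_helper49.Mix.Bd f c := by
    clear h1 h2
    induction hf with
    | leaf k d g s c h hs hdeg hk hh hb =>
      exact Pool.Agent.Lib_helper49.Mix.Bd.leaf g k d s hs c hdeg hk h hh hb
    | mix p h c _ ih => exact Pool.Agent.Lib_helper49.Mix.Bd.sum ih
    | query v h h0 h1 a b e0 e1 hh _ _ ih0 ih1 =>
      have e : h = fun x => if x v then h1 x else h0 x := funext hh
      rw [e]
      exact Pool.Agent.Lib_helper49.Mix.Bd.query e0 e1 ih0 ih1
    | prod T q r a b hq hr _ _ ihq ihr =>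
      exact Pool.Agent.Lib_helper49.Mix.Bd.prod T hq hr ihq ihr
  exact key.top h1 h2

end Pool.Agent.Results.MP_cf5f8b_an.PluriharmonicCalculus
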