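import Pool.Agent.Lib_helper93.QB.VTree

set_option autoImplicit false

open Finset

namespace Pool.Agent.Results.MP_cf5f8b_an.QuantumAlgorithms

open Pool.Agent.Lib_helper93.QSim (DTree pr)

/-- **The Aaronson–Ambainis inequality for quantum query algorithms, and the classical simulation
of quantum query algorithms on most inputs.**

Let `f x` be the acceptance probability of a quantum query algorithm on inputs
`x ∈ {-1,1}^I` which makes `r` rounds of queries, each round consisting of `p` parallel queries,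
and suppose that every coordinate is queried in at most `b` of the `r` rounds (`b = r` is always
allowed). Let
`M = min ((16 p)^(2 r)) ((5 p r^3)^(2 b)) (exp (140 (log (2 p r))^2))`.

(a) Some coordinate has influence at least `Var(f)^6 / (2^16 r^2 p^2 M^2)`.

(b) For all `ε, δ > 0` a classical decision tree of depth at most `32 p r M / (ε^4 δ^3)` computes
`f(x)` up to an additive error `ε` for all but a fraction `δ` of the inputs.

(c) If the algorithm computes `F : {-1,1}^I → {0,1}` with error at most `1/3` on all but a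
fraction `β` of the inputs then for every `δ > 0` a classical decision tree of depth at most
`2^17 p r M / δ^3` computes `F` on all but a fraction `β + δ` of the inputs.

* For arbitrary quantum algorithms with `T` queries (`p = 1`, `r = T`) the bounds are
  `Var(f)^6 exp (- O((log T)^2))` and `exp (O((log T)^2)) / (ε^4 δ^3)`: quasi-polynomial in the
  number of queries and polynomial in the other parameters.
* For every fixed number `r` of adaptive rounds they are polynomial in the number of queries.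
* For every fixed `b` they are polynomial, for any number of adaptive rounds. For `b = 1` (the
  `t`-th query is made to the `t`-th block of the input) the functions `f` contain the
  completely bounded block-multilinear forms. -/
theorem result (I A : Type) [Fintype I] [DecidableEq I] [Nonempty I] [Fintype A]
    (p r b : ℕ) (hp : 1 ≤ p) (hr : 1 ≤ r) (Q : Lib_helper8.QAA.Algorithm I A p)
    (hb : ∀ i : I, {t : ℕ | t < r ∧ ∃ (x : I → Bool) (a : A),
      i ∈ Q.query a ∧ Q.state t x a ≠ 0}.ncard ≤ b)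
    (M : ℝ) (hM : M = min (min ((16 * (p : ℝ)) ^ (2 * r)) ((5 * (p : ℝ) * (r : ℝ) ^ 3) ^ (2 * b)))
      (Real.exp (140 * (Real.log (2 * (p : ℝ) * (r : ℝ))) ^ 2))) :
    (∃ j : I,
      (((2 : ℝ) ^ Fintype.card I)⁻¹ * ∑ x : I → Bool, Q.prob r x ^ 2
          - (((2 : ℝ) ^ Fintype.card I)⁻¹ * ∑ x : I → Bool, Q.prob r x) ^ 2) ^ 6 /
        (2 ^ 16 * (r : ℝ) ^ 2 * (p : ℝ) ^ 2 * M ^ 2) ≤
      ((2 : ℝ) ^ Fintype.card I)⁻¹ * ∑ x : I → Bool,
        ((Q.prob r x - Q.prob r (Function.update x j (!x j))) / 2) ^ 2) ∧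
    (∀ ε δ : ℝ, 0 < ε → 0 < δ →
      ∃ t : DTree I ℝ,
        (t.depth : ℝ) ≤ 32 * (p : ℝ) * (r : ℝ) * M / (ε ^ 4 * δ ^ 3) ∧
        pr {x | ε < |Q.prob r x - t.eval x|} ≤ δ) ∧
    (∀ (F : (I → Bool) → Bool) (δ : ℝ), 0 < δ →
      ∃ t : DTree I Bool,
        (t.depth : ℝ) ≤ 2 ^ 17 * (p : ℝ) * (r : ℝ) * M / δ ^ 3 ∧
        pr {x | t.eval x ≠ F x} ≤ δ + pr {x | ¬ ((F x = true → 2 / 3 ≤ Q.prob r x) ∧
          (F x = false → Q.prob r x ≤ 1 / 3))}) := by
  subst hM
  refine ⟨?_, fun ε δ hε hδ => Lib_helper93.QB.sim_rounds hp hr b Q hb hε hδ,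
    fun F δ hδ => Lib_helper93.QB.sim_rounds_bool hp hr b Q hb F hδ⟩
  have hinfl : ∀ j : I, 0 ≤ ((2 : ℝ) ^ Fintype.card I)⁻¹ * ∑ x : I → Bool,
      ((Q.prob r x - Q.prob r (Function.update x j (!x j))) / 2) ^ 2 := fun j => by positivity
  set v : ℝ := ((2 : ℝ) ^ Fintype.card I)⁻¹ * ∑ x : I → Bool, Q.prob r x ^ 2
          - (((2 : ℝ) ^ Fintype.card I)⁻¹ * ∑ x : I → Bool, Q.prob r x) ^ 2 with hv
  have hv2 := Lib_helper8.QAA.variance_eq (Q.prob r)
  have hv0 : 0 ≤ v := by
    rw [hv, hv2]
    exact Finset.sum_nonneg fun _ _ => sq_nonneg _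
  rcases hv0.eq_or_lt with h0 | h0
  · obtain ⟨j⟩ := (inferInstance : Nonempty I)
    refine ⟨j, ?_⟩
    rw [← h0, zero_pow (by omega), zero_div]
    exact hinfl j
  · exact Lib_helper93.QB.aa_rounds hp hr b Q hb h0 rfl

end Pool.Agent.Results.MP_cf5f8b_an.QuantumAlgorithms
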